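import Mathlib
import Pool.Agent.Q215.MK.Final

set_option autoImplicit false

/-!
# Every nonsmooth aperiodic countable Borel equivalence relation has a minimal `K_σ` realization

By the Glimm-Effros dichotomy `X` has an invariant Borel part `A` isomorphic to `E₀ × I(ℕ)` on
`2^ℕ × ℕ`. The rest `B` is cut into finite blocks inside classes: blocks of level `l` have
`(l+1) 2^l` elements, one for each pair `(c, u)` with `c ≤ l` and `u` a finitely supported binary
sequence whose last one is in position `l`, and every class of `B` meets all levels. In a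
zero-dimensional Polish topology on `B` everything is continuous, and `B` embeds in `2^ℕ` as a
relatively closed subset of the set of sequences with infinitely many ones, whose complement is
countable. The space `Y ⊆ ℕ × 2^ℕ × (2^ℕ)^ℕ` is obtained from `ℕ × 2^ℕ` by replacing each point
`(c, u)` of level `l ≥ c` by the closure `K_l` of the set of codes of blocks of level `l`, in such
a way that all the `K_s` accumulate everywhere; the countably many points added by the closures
and the finitely supported points of level less than `c` form one class, which corresponds to one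
class of the part `A`.
-/

namespace Pool.Agent.Results.MP_daea50_lc.MinimalKSigma

universe u

/-- Every nonsmooth aperiodic countable Borel equivalence relation on an uncountable standard
Borel space is Borel isomorphic to an equivalence relation on a (locally compact) Polish space
which is a countable union of compact sets and all of whose classes are dense. -/
theorem result {X : Type u} [MeasurableSpace X] [StandardBorelSpace X] (hX : ¬ Countable X)
    (E : X → X → Prop) (hE : Equivalence E) (hm : MeasurableSet {p : X × X | E p.1 p.2})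
    (hc : ∀ x, {y | E x y}.Countable) (ha : ∀ x, {y | E x y}.Infinite)
    (hns : ¬ ∃ T : Set X, MeasurableSet T ∧ ∀ x, ∃! y, y ∈ T ∧ E x y) :
    ∃ (Y : Type) (_ : TopologicalSpace Y) (_ : PolishSpace Y) (_ : MeasurableSpace Y)
      (_ : BorelSpace Y) (f : X ≃ᵐ Y), LocallyCompactSpace Y ∧
      (∃ K : ℕ → Set (Y × Y), (∀ n, IsCompact (K n)) ∧
        {p : Y × Y | E (f.symm p.1) (f.symm p.2)} = ⋃ n, K n) ∧
      ∀ y, Dense {z | E (f.symm y) (f.symm z)} := by
  let e : X ≃ᵐ ℝ := PolishSpace.measurableEquivOfNotCountable hX (by
    rw [not_countable_iff]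
    infer_instance)
  let E' : ℝ → ℝ → Prop := fun x y => E (e.symm x) (e.symm y)
  have h1 : ∀ r, {y | E' r y} = e.symm ⁻¹' {y | E (e.symm r) y} := fun r => rfl
  have h2 : ¬ ∃ T : Set ℝ, MeasurableSet T ∧ ∀ x, ∃! y, y ∈ T ∧ E' x y := by
    rintro ⟨T, hT, hT'⟩
    refine hns ⟨e ⁻¹' T, e.measurable hT, fun x => ?_⟩
    obtain ⟨y, ⟨hy, hxy⟩, hu⟩ := hT' (e x)
    refine ⟨e.symm y, ⟨?_, ?_⟩, ?_⟩
    · show e (e.symm y) ∈ T
      rw [e.apply_symm_apply]
      exact hy
    · have h3 : E (e.symm (e x)) (e.symm y) := hxy
      rwa [e.symm_apply_apply] at h3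
    · rintro z ⟨hz, hxz⟩
      have h3 := hu (e z) ⟨hz, by
        show E (e.symm (e x)) (e.symm (e z))
        rw [e.symm_apply_apply, e.symm_apply_apply]
        exact hxz⟩
      rw [← h3, e.symm_apply_apply]
  obtain ⟨Y, i1, i2, i3, i4, f, h3, ⟨K, hK1, hK2⟩, h4⟩ := Pool.Agent.Q215.MK.final0 E'
    ⟨fun x => hE.refl _, fun h => hE.symm h, fun h h' => hE.trans h h'⟩
    (hm.preimage ((e.symm.measurable.comp measurable_fst).prodMk
      (e.symm.measurable.comp measurable_snd)))
    (fun r => by
      rw [h1]
      exact (hc _).preimage e.symm.injective)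
    (fun r => by
      rw [h1]
      intro h5
      apply ha (e.symm r)
      have h6 := h5.image e.symm
      rwa [Set.image_preimage_eq _ e.symm.surjective] at h6)
    h2
  exact ⟨Y, i1, i2, i3, i4, e.trans f, h3, ⟨K, hK1, hK2⟩, h4⟩

end Pool.Agent.Results.MP_daea50_lc.MinimalKSigma
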